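import Pool.Agent.Helper85.CA.Fin
import Pool.Agent.Helper85.CA.CANC
import Pool.Agent.Helper85.CA.CNT
import Pool.Agent.Helper85.CA.CN1
import Pool.Agent.Helper85.CA.HIG
import Pool.Agent.Helper85.CA.ASY

/-!
# The McKay–Galois conjecture: if it fails once, then counterexamples abound

Let `p` be a prime and `A` a group of automorphisms of `ℂ` (for instance the group `ℋ` of the
conjecture, `HH p` below). `MG p A G` says that for every Sylow `p`-subgroup `P` of the finite group
`G` there is a bijection `Irr_{p'}(G) → Irr_{p'}(N_G(P))` commuting with the action of `A`. We count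
groups up to isomorphism: `numGrp n` is the number `g(n)` of the groups of order `n` and
`numFail p A n` is the number `v(n)` of the groups of order `n` for which `MG p A` fails.

If `v(m) > 0` for some `m`, then `v(n) + v(mn) ≥ g(n)` and, more generally,
`v(n) + v(mn) + ⋯ + v(m^r n) ≥ r g(n)` for all `n` and `r`; each multiple of `m` is the order of a
counterexample, `v(mn)` is at least the number of the groups of order `n` with normal Sylow
`p`-subgroups, `v(m q^(3k)) ≥ q^(2k³ - 10k²)` for all primes `q`, and at least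
`x^((2/27) (log₂ x)² - C log₂ x)` groups of order at most `x` are counterexamples. (By Pyber's theorem,
which is not used here, there are `x^((2/27 + o(1)) (log₂ x)²)` groups of order at most `x`.)

Proof. The numbers of the fixed characters of degree prime to `p` of `G` and of `N_G(P)` are
multiplicative for direct products. So if `MG` fails for `G`, then for each finite group `K` at most one
of the groups `K × G^e`, `e ≥ 0`, satisfies `MG`. Finite direct factors can be cancelled (counting
homomorphisms, Lovász), so the groups `K × G^e` for different `K` are not isomorphic. The lower bound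
for the number of groups of order `q^n` is Higman's construction.
-/

set_option autoImplicit false
set_option linter.style.haveILetI false

open Pool.Agent.Helper13.MG Pool.Agent.Helper85.CA

namespace Pool.Agent.Results.MP_1ae3da_al.CounterexamplesAbound

/-- The group `ℋ` of the McKay–Galois conjecture, as a group of automorphisms of `ℂ`. -/
def HH (p : ℕ) : Subgroup (RingAut ℂ) :=
  Subgroup.closure {σ | ∃ e : ℕ, ∀ (m : ℕ) (ξ : ℂ), ¬ p ∣ m → ξ ^ m = 1 → σ ξ = ξ ^ p ^ e}

/-- The number of the isomorphism classes of the groups of order at most `x` for which `MG p A`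
fails. -/
noncomputable def cumFail (p : ℕ) (A : Subgroup (RingAut ℂ)) (x : ℕ) : ℕ :=
  ∑ n ∈ Finset.Icc 1 x, numFail p A n

/-- The number of the isomorphism classes of the groups of order at most `x`. -/
noncomputable def cumGrp (x : ℕ) : ℕ := ∑ n ∈ Finset.Icc 1 x, numGrp n

/-- **If the McKay–Galois conjecture fails once, then counterexamples abound.** Let `p` be a prime and
`A` a group of automorphisms of `ℂ` (for instance `HH p`).
(1) If `MG p A` fails for some group of order `m`, then (a) `∑_{e ≤ r} v(m^e n) ≥ r g(n)`, where `v(n)`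
and `g(n)` are the numbers of the isomorphism classes of the groups of order `n` for which `MG p A`
fails, and of all groups of order `n`; (b) `v(mn)` is at least the number of the groups of order `n`
with normal Sylow `p`-subgroups; (c) `v(mn) > 0` for all `n ≥ 1`; (d) `v(m q^(3k)) ≥ q^(2k³ - 10k²)`
for all primes `q`; (e) `2 V(mx) ≥ G(x)`, where `V` and `G` are the numbers for the groups of order
at most `x`; (f) `V(x) ≥ 2^((2/27) L³ - C L²)`, `L = log₂ x`, for some `C` and all `x ≥ m, 2`.
(2) So the following are equivalent: `MG p A` holds for all finite groups; for every `m ≥ 1` there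
are `n ≥ 1` and `r` with `∑_{e ≤ r} v(m^e n) < r g(n)`; for every `m ≥ 1` some multiple of `m` is not
the order of a counterexample; for every `m ≥ 1` there are a prime `q` and `k` with
`v(m q^(3k)) < q^(2k³ - 10k²)`; for every `m ≥ 1` there is `x` with `2 V(mx) < G(x)`; for all `C` and
`x₀` there is `x ≥ x₀` with `V(x) < 2^((2/27) L³ - C L²)`. -/
theorem result (p : ℕ) [Fact p.Prime] (A : Subgroup (RingAut ℂ)) :
    (∀ (G : Type) [Group G] [Finite G], ¬ MG p A G →
      (∀ n r : ℕ, 0 < n →
        r * numGrp n ≤ ∑ e ∈ Finset.range (r + 1), numFail p A (Nat.card G ^ e * n)) ∧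
      (∀ n : ℕ, 0 < n → num (fun H _ => NorSyl p H) n ≤ numFail p A (Nat.card G * n)) ∧
      (∀ n : ℕ, 0 < n → 0 < numFail p A (Nat.card G * n)) ∧
      (∀ q k : ℕ, q.Prime →
        q ^ (2 * k ^ 3) ≤ numFail p A (Nat.card G * q ^ (3 * k)) * q ^ (10 * k ^ 2)) ∧
      (∀ x : ℕ, cumGrp x ≤ 2 * cumFail p A (Nat.card G * x)) ∧
      ∃ C : ℝ, ∀ x : ℕ, Nat.card G ≤ x → 2 ≤ x →
        (2 : ℝ) ^ (2 / 27 * Real.logb 2 x ^ 3 - C * Real.logb 2 x ^ 2) ≤ cumFail p A x) ∧
    List.TFAE [
      ∀ (G : Type) [Group G] [Finite G], MG p A G,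
      ∀ m : ℕ, 1 ≤ m → ∃ n r : ℕ, 1 ≤ n ∧
        ∑ e ∈ Finset.range (r + 1), numFail p A (m ^ e * n) < r * numGrp n,
      ∀ m : ℕ, 1 ≤ m → ∃ n : ℕ, 1 ≤ n ∧ numFail p A (m * n) = 0,
      ∀ m : ℕ, 1 ≤ m → ∃ q k : ℕ, q.Prime ∧
        numFail p A (m * q ^ (3 * k)) * q ^ (10 * k ^ 2) < q ^ (2 * k ^ 3),
      ∀ m : ℕ, 1 ≤ m → ∃ x : ℕ, 2 * cumFail p A (m * x) < cumGrp x,
      ∀ (C : ℝ) (x₀ : ℕ), ∃ x : ℕ, x₀ ≤ x ∧
        (cumFail p A x : ℝ) < 2 ^ (2 / 27 * Real.logb 2 x ^ 3 - C * Real.logb 2 x ^ 2)] := by
  have hT : S_CNT := CNT.main CANC.main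
  have hU : S_CN1 := CN1.main CANC.main
  have hpos : ∀ (G : Type) [Group G] [Finite G], ¬ MG p A G → 0 < numFail p A (Nat.card G) := by
    intro G _ _ hG
    obtain ⟨G', ⟨e⟩⟩ := exists_car G
    exact num_pos_iff.2 ⟨G', fun h => hG (mg_congr A e h)⟩
  refine ⟨?_, ?_⟩
  · intro G _ _ hG
    have h := hpos G hG
    refine ⟨fun n r hn => part_a hT A h hn r, fun n hn => part_b hU A h hn,
      fun n hn => part_c hU A h hn, ?_, fun x => part_e hT A h x,
      part_f hU HIG.main ASY.main A h⟩
    intro q k hq
    haveI : Fact q.Prime := ⟨hq⟩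
    exact part_d' hU HIG.main A h q k
  · tfae_have 1 → 2 := by
      intro h m _
      refine ⟨1, 1, le_rfl, ?_⟩
      rw [Finset.sum_eq_zero fun e _ => fail_zero h _, one_mul]
      exact numGrp_pos one_pos
    tfae_have 1 → 3 := fun h m _ => ⟨1, le_rfl, fail_zero h _⟩
    tfae_have 1 → 4 := by
      intro h m _
      refine ⟨2, 0, Nat.prime_two, ?_⟩
      rw [fail_zero h, zero_mul]
      positivity
    tfae_have 1 → 5 := by
      intro h m _
      refine ⟨1, ?_⟩
      have h1 : cumFail p A (m * 1) = 0 := Finset.sum_eq_zero fun e _ => fail_zero h _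
      rw [h1, mul_zero]
      have h2 : cumGrp 1 = numGrp 1 := by simp [cumGrp]
      rw [h2]
      exact numGrp_pos one_pos
    tfae_have 1 → 6 := by
      intro h C x₀
      refine ⟨x₀, le_rfl, ?_⟩
      have h1 : cumFail p A x₀ = 0 := Finset.sum_eq_zero fun e _ => fail_zero h _
      rw [h1, Nat.cast_zero]
      positivity
    tfae_have 2 → 1 := by
      intro h
      by_contra hc
      obtain ⟨m, hm, h1⟩ := exists_fail hc
      obtain ⟨n, r, hn, h2⟩ := h m hm
      exact absurd (part_a hT A h1 hn r) (not_le.2 h2)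
    tfae_have 3 → 1 := by
      intro h
      by_contra hc
      obtain ⟨m, hm, h1⟩ := exists_fail hc
      obtain ⟨n, hn, h2⟩ := h m hm
      exact (part_c hU A h1 hn).ne' h2
    tfae_have 4 → 1 := by
      intro h
      by_contra hc
      obtain ⟨m, hm, h1⟩ := exists_fail hc
      obtain ⟨q, k, hq, h2⟩ := h m hm
      haveI : Fact q.Prime := ⟨hq⟩
      exact absurd (part_d' hU HIG.main A h1 q k) (not_le.2 h2)
    tfae_have 5 → 1 := by
      intro h
      by_contra hc
      obtain ⟨m, hm, h1⟩ := exists_fail hc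
      obtain ⟨x, h2⟩ := h m hm
      exact absurd (part_e hT A h1 x) (not_le.2 h2)
    tfae_have 6 → 1 := by
      intro h
      by_contra hc
      obtain ⟨m, hm, h1⟩ := exists_fail hc
      obtain ⟨C, hC⟩ := part_f hU HIG.main ASY.main A h1
      obtain ⟨x, hx, h2⟩ := h C (max m 2)
      exact absurd (hC x ((le_max_left _ _).trans hx) ((le_max_right _ _).trans hx)) (not_le.2 h2)
    tfae_finish

end Pool.Agent.Results.MP_1ae3da_al.CounterexamplesAbound
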