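import Pool.Agent.Helper13.MG.Seq

/-!
# The McKay–Galois conjecture: one sequence of groups decides, and a zero-one law

`kP p K G` (library) is the number of the irreducible complex characters of `G` of degree prime to
`p` which are fixed by all field automorphisms in `K`; `IrrP p G` is the set of the irreducible
characters of degree prime to `p`, and `Equivar A f` says that the bijection `f` commutes with the
action of `A`. For a sequence `G_0, G_1, …` of finite groups and exponents `m_j` let `Γ_0 = G_0` and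
`Γ_{j+1} = Γ_j ^ m_j × G_{j+1}` (`Gam G m j`).

If the exponents grow fast enough (`m_j ≥ 8^(j+1) |Γ_j| |G_{j+1}|`), then bijections
`Irr_{p'}(G_i) → Irr_{p'}(N(P))` commuting with `A` exist for all `i` as soon as the numbers of fixed
characters of `Γ_j` and of the normalizer of a Sylow `p`-subgroup of `Γ_j` agree up to factors
`|Γ_j|^ε` for infinitely many `j`; for different subgroups of `A` and different `ε` the `j` may be
different. All finite groups occur in one sequence `G_0, G_1, …`, so one sequence `Γ_0, Γ_1, …` decides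
the conjecture for all finite groups, all primes and all groups of automorphisms (for instance for
the group `𝓗` of the conjecture).

Proof. The numbers `a(G)`, `b(G)` of `K`-fixed characters of `G` and of `N_G(P)` are multiplicative. If
`a(Γ_j) ≠ b(Γ_j)`, then their logarithms differ by at least `1 / |Γ_j|`, and in `Γ_j ^ m_j × G_{j+1}` the
factor `G_{j+1}` can change the difference only by a small proportion. So the logarithms of `a(Γ_k)` and
`b(Γ_k)` differ by at least `c log |Γ_k|` for all `k ≥ j`, with a constant `c > 0`.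
-/

set_option autoImplicit false

open Pool.Agent.Helper13.MG Pool.Agent.R893.TP2

namespace Pool.Agent.Results.MP_1ae3da_al.OneSequenceDecides

/-- The group `𝓗` of the McKay–Galois conjecture, as a group of automorphisms of `ℂ`. -/
def HH (p : ℕ) : Subgroup (RingAut ℂ) :=
  Subgroup.closure {σ | ∃ e : ℕ, ∀ (m : ℕ) (ξ : ℂ), ¬ p ∣ m → ξ ^ m = 1 → σ ξ = ξ ^ p ^ e}

/-- For each `ε > 0` there are infinitely many `j` such that the numbers of the `K`-fixed characters of
degree prime to `p` of `Γ_j` and of the normalizer of a Sylow `p`-subgroup of `Γ_j` agree up to the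
factor `|Γ_j|^ε`. -/
def NearK (p : ℕ) (K : Subgroup (RingAut ℂ)) (Γ : ℕ → FG) : Prop :=
  ∀ ε : ℝ, 0 < ε → ∀ i : ℕ, ∃ j, i ≤ j ∧ Near p K ε (Γ j).G

/-- `MG p A Γ_j` for infinitely many `j`. -/
def Often (p : ℕ) (A : Subgroup (RingAut ℂ)) (Γ : ℕ → FG) : Prop :=
  ∀ i : ℕ, ∃ j, i ≤ j ∧ MG p A (Γ j).G


/-- **One sequence of groups decides the McKay–Galois conjecture.** `MG p A G` says that for every
Sylow `p`-subgroup `P` of `G` there is a bijection `Irr_{p'}(G) → Irr_{p'}(N_G(P))` commuting with the
action of the group `A` of field automorphisms (for instance `A = HH p`).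

(1) There is a sequence `Γ_0, Γ_1, …` of finite groups such that for every prime `p` and every group
`A` of automorphisms of `ℂ` the following are equivalent: `MG p A H` for all finite groups `H`;
`MG p A Γ_j` for infinitely many `j`; for each `K ≤ A` and `ε > 0` the numbers of `K`-fixed characters
for `Γ_j` and `N(P_j)` agree up to the factor `|Γ_j|^ε` for infinitely many `j`. For a single group `K`
these numbers are equal for all finite groups if and only if for every `ε > 0` they agree up to the
factor `|Γ_j|^ε` for infinitely many `j`.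

(2) More precisely, let `G_0, G_1, …` be finite groups, `Γ_0 = G_0`, `Γ_{j+1} = Γ_j ^ m_j × G_{j+1}` with
`m_j ≥ 8^(j+1) |Γ_j| |G_{j+1}|`. Then the conditions on the `Γ_j` in (1) are equivalent to `MG p A G_i`
(to the equality of the two numbers for `G_i`) for all `i`.

(3) Zero-one law: for finite groups `G_0, …, G_n` either `MG p A` holds for all direct products
`∏ G_i ^ e_i`, or for every `N` it holds for at most `(N+1)^n` of the `(N+1)^(n+1)` such products with
exponents `e_i ≤ N`. -/
theorem result :
    (∃ Γ : ℕ → FG, ∀ (p : ℕ) [Fact p.Prime],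
      (∀ A : Subgroup (RingAut ℂ),
        ((∀ (H : Type) [Group H] [Finite H], MG p A H) ↔ Often p A Γ) ∧
        ((∀ (H : Type) [Group H] [Finite H], MG p A H) ↔ ∀ K, K ≤ A → NearK p K Γ)) ∧
      ∀ K : Subgroup (RingAut ℂ),
        (∀ (H : Type) [Group H] [Finite H], Same p K H) ↔ NearK p K Γ) ∧
    (∀ (G : ℕ → FG) (m : ℕ → ℕ),
      (∀ j, 8 ^ (j + 1) * Nat.card (Gam G m j).G * Nat.card (G (j + 1)).G ≤ m j) →
      ∀ (p : ℕ) [Fact p.Prime],
        (∀ A : Subgroup (RingAut ℂ),
          ((∀ i, MG p A (G i).G) ↔ Often p A (Gam G m)) ∧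
          ((∀ i, MG p A (G i).G) ↔ ∀ K, K ≤ A → NearK p K (Gam G m))) ∧
        ∀ K : Subgroup (RingAut ℂ), (∀ i, Same p K (G i).G) ↔ NearK p K (Gam G m)) ∧
    (∀ (p : ℕ) [Fact p.Prime] (A : Subgroup (RingAut ℂ)) (n : ℕ) (G : Fin (n + 1) → FG),
      (∀ e : Fin (n + 1) → ℕ, MG p A (∀ i, (Fin (e i) → (G i).G))) ∨
      ∀ N : ℕ, Nat.card {e : Fin (n + 1) → Fin (N + 1) //
        MG p A (∀ i, (Fin (e i) → (G i).G))} ≤ (N + 1) ^ n) := by
  have two : ∀ (G : ℕ → FG) (m : ℕ → ℕ),
      (∀ j, 8 ^ (j + 1) * Nat.card (Gam G m j).G * Nat.card (G (j + 1)).G ≤ m j) →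
      ∀ (p : ℕ) [Fact p.Prime],
        (∀ A : Subgroup (RingAut ℂ),
          ((∀ i, MG p A (G i).G) ↔ Often p A (Gam G m)) ∧
          ((∀ i, MG p A (G i).G) ↔ ∀ K, K ≤ A → NearK p K (Gam G m))) ∧
        ∀ K : Subgroup (RingAut ℂ), (∀ i, Same p K (G i).G) ↔ NearK p K (Gam G m) := by
    intro G m hm p _
    refine ⟨fun A => ?_, fun K => ⟨fun h ε hε i =>
      ⟨i, le_rfl, near_of_same hε (same_gam K G m h i)⟩, one_seq_K K G m hm⟩⟩
    have h1 : (∀ i, MG p A (G i).G) → Often p A (Gam G m) :=
      fun h i => ⟨i, le_rfl, mg_gam A G m h i⟩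
    have h2 : Often p A (Gam G m) → ∀ K, K ≤ A → NearK p K (Gam G m) := by
      intro h K hK ε hε i
      obtain ⟨j, hj, hM⟩ := h i
      exact ⟨j, hj, near_of_MG hK hε hM⟩
    have h3 : (∀ K, K ≤ A → NearK p K (Gam G m)) → ∀ i, MG p A (G i).G := one_seq A G m hm
    exact ⟨⟨h1, fun h => h3 (h2 h)⟩, ⟨fun h => h2 (h1 h), h3⟩⟩
  refine ⟨?_, two, ?_⟩
  · obtain ⟨G, hG⟩ := exists_enum
    obtain ⟨m, hm⟩ := exists_m G
    refine ⟨Gam G m, ?_⟩
    intro p _
    have h0 : ∀ K : Subgroup (RingAut ℂ),
        (∀ (H : Type) [Group H] [Finite H], Same p K H) ↔ ∀ i, Same p K (G i).G := by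
      intro K
      constructor
      · intro h i
        exact h _
      · intro h H _ _
        obtain ⟨i, ⟨e⟩⟩ := hG H
        rw [same_iff, kP_congr _ e, kN_congr _ e]
        exact (same_iff K _).1 (h i)
    refine ⟨fun A => ?_, fun K => (h0 K).trans ((two G m hm p).2 K)⟩
    have h1 : (∀ (H : Type) [Group H] [Finite H], MG p A H) ↔ ∀ i, MG p A (G i).G := by
      constructor
      · intro h i
        exact h _
      · intro h H _ _
        rw [MG_iff]
        intro K hK
        refine (same_iff K H).1 ((h0 K).2 (fun i => (same_iff K _).2 ?_) H)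
        exact (MG_iff A _).1 (h i) K hK
    obtain ⟨h2, h3⟩ := (two G m hm p).1 A
    exact ⟨h1.trans h2, h1.trans h3⟩
  · intro p _ A n G
    by_cases h : ∀ i, MG p A (G i).G
    · left
      intro e
      rw [MG_iff]
      intro K hK
      have h3 := (mulFun_kP (p := p) (K : Set (RingAut ℂ))).pi
        (fun i => (Fin (e i : ℕ) → (G i).G))
      have h4 := (mulFun_kN (p := p) (K : Set (RingAut ℂ))).pi
        (fun i => (Fin (e i : ℕ) → (G i).G))
      rw [h3, h4]
      refine Finset.prod_congr rfl fun i _ => ?_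
      have h5 := (mulFun_kP (p := p) (K : Set (RingAut ℂ))).pow (e i : ℕ) (G i).G
      have h6 := (mulFun_kN (p := p) (K : Set (RingAut ℂ))).pow (e i : ℕ) (G i).G
      rw [h5, h6, (MG_iff A _).1 (h i) K hK]
    · right
      intro N
      by_contra hN
      exact h fun i => zero_one A N G (not_le.1 hN) i

end Pool.Agent.Results.MP_1ae3da_al.OneSequenceDecides
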