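import Pool.Agent.Helper15.MGS.Sur

/-!
# The McKay–Galois conjecture and the numbers of generating tuples

The statement of the conjecture compares the characters of `G` of degree prime to `p` with those of
the normalizer of a Sylow `p`-subgroup. We give an equivalent form without local subgroups and
without bijections: it says that the last slope of certain numbers of generating tuples of `G` is
zero if the Sylow `p`-subgroups of `G` are not normal.

Let `τ_1, …, τ_r` be exponents prime to `|G|` and congruent to powers of `p` modulo the part of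
`|G|` prime to `p`. Let `s(n)` be the number of the `2(r+n)`-tuples `a_i, b_i, c_j, d_j` which
generate `G` and satisfy `∏ a_i b_i a_i^(-τ_i) b_i⁻¹ · [c_1,d_1] ⋯ [c_n,d_n] = 1`, that is, the
number of the surjections onto `G` of a one-relator group (a twisted surface group). Then
`s(n) = ∑_K μ(K, G) |K| ∑_χ (|K|/χ(1))^(2(n+r-1))`, where `K` runs over the subgroups of `G`, `μ` is
the Möbius function and `χ` runs over the irreducible characters of `K` fixed by the `τ_i`. The last
slope (at `0`) is `∑_K μ(K, G) |K| |Irr_{p'}(K)^τ|`, `K` of index prime to `p`.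

Idea of the proof: for a Sylow `p`-subgroup `P` of `G` the function
`K ↦ |N_K(P)| |Irr_{p'}(N_K(P))^τ|` on the subgroups containing `P` depends only on `K ∩ N_G(P)`.
Therefore its Möbius transform vanishes at `G` if `P` is not normal. The sum of these functions over
`P` is `|K| |Irr_{p'}(N_K(P_K))^τ|` for `P_K ∈ Syl_p(K)`.
-/

set_option autoImplicit false
set_option linter.style.haveILetI false
set_option linter.unusedVariables false

namespace Pool.Agent.Results.MP_1ae3da_al.SurjectionsOntoGroups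

open Pool.Agent.Y360.MC (McKayGalois InT FixT nav_one nav_two gen_of hasEquiv_of_card2 card_fix_eq
  isTwSlopes_sl isTwSlopes_unique card_FixT IsTwSlopes numTw)
open Pool.Agent.Helper15.MG (Cl IsSurjSlopes mt gA)

/-- the conjecture and the numbers of fixed characters -/
lemma mg_iff {p : ℕ} [Fact p.Prime] {G : Type} [Group G] [Finite G] (P : Sylow p G) (r : ℕ)
    (hr : 3 ≤ r ∨ (p ≠ 2 ∧ 2 ≤ r)) : McKayGalois p G P ↔
      ∀ τ : Fin r → ℕ, (∀ i, InT p (Nat.card G) (τ i)) →
        Nat.card (FixT p τ G) = Nat.card (FixT p τ (Subgroup.normalizer (P : Set G))) := by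
  have hM : Nat.card G ≠ 0 := Nat.card_pos.ne'
  constructor
  · intro h τ hτ
    exact card_fix_eq P (fun t ht => nav_one hM t ht) h τ hτ
  · intro h
    haveI : NeZero (Nat.card G) := ⟨hM⟩
    exact hasEquiv_of_card2 P (fun σ hσ => nav_two hM σ hσ) (gen_of r hr) h

lemma inT_mono {p M M' t : ℕ} (hM : M ≠ 0) (h : M' ∣ M) (ht : InT p M t) : InT p M' t := by
  obtain ⟨h1, e, he⟩ := ht
  exact ⟨h1.coprime_dvd_right h, e, he.of_dvd (Nat.ordCompl_dvd_ordCompl_of_dvd h p)⟩

lemma numTw_congr {r g : ℕ} (τ : Fin r → ℕ) {H K : Type} [Group H] [Group K] (e : H ≃* K) :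
    numTw τ g H = numTw τ g K := by
  refine Nat.card_congr (Equiv.subtypeEquiv
    (Equiv.prodCongr (Equiv.piCongrRight fun _ => Equiv.prodCongr e.toEquiv e.toEquiv)
      (Equiv.piCongrRight fun _ => Equiv.prodCongr e.toEquiv e.toEquiv)) fun q => ?_)
  change (Pool.Agent.Helper15.MG.w2 τ q = 1) ↔
    (Pool.Agent.Helper15.MG.w2 τ (Pool.Agent.Helper15.MG.map2 (e : H →* K) q) = 1)
  rw [Pool.Agent.Helper15.MG.w2_map]
  change _ ↔ e _ = 1
  rw [map_eq_one_iff e e.injective]

lemma card_FixT_congr {p r : ℕ} [Fact p.Prime] {τ : Fin r → ℕ} {H K : Type} [Group H] [Group K]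
    [Finite H] (hτ : ∀ i, Nat.Coprime (τ i) (Nat.card H)) (e : H ≃* K) :
    Nat.card (FixT p τ H) = Nat.card (FixT p τ K) := by
  haveI : Finite K := Finite.of_equiv H e.toEquiv
  letI : Fintype H := Fintype.ofFinite H
  letI : Fintype K := Fintype.ofFinite K
  have hc : Nat.card H = Nat.card K := Nat.card_congr e.toEquiv
  have h1 := isTwSlopes_sl (p := p) τ hτ
  have h2 : IsTwSlopes p τ K (fun d n => Pool.Agent.Y360.MC.sl p d n
      (Pool.Agent.Y360.MC.IrrT τ H)) := by
    refine ⟨fun n => ?_, h1.2.1, fun d n hd => h1.2.2 d n (by rwa [hc])⟩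
    rw [← numTw_congr τ e, ← hc]
    exact h1.1 n
  have h3 := card_FixT (p := p) hτ h1
  have h4 := card_FixT (p := p) (fun i => by rw [← hc]; exact hτ i) h2
  rw [← hc, ← h3] at h4
  exact_mod_cast h4.symm

/-- **The McKay–Galois conjecture and generating tuples.** Let `p` be a prime, and let `r ≥ 2` if
`p` is odd and `r ≥ 3` in general.
(1) For a finite group `G` and exponents `τ_1, …, τ_r` prime to `|G|` there is exactly one function
`f` with `f 0 (n + r) = s(n + 1)`, where `s(n)` is the number of the `2(r+n)`-tuples which generate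
`G` and for which the product of `r` twisted and `n` ordinary commutators is `1`, with
`f d n ≡ f d (n + (p-1) p^k) + p^(2n) f (d+1) n` modulo `p^(k+1)` for all `d`, `n`, `k`, and with
`f d n = 0` if `p^d` does not divide `|G|`.
(2) For each class `X` of groups closed under isomorphisms and subgroups the following are
equivalent: (a) the McKay–Galois conjecture for the finite groups in `X`; (b) for all finite groups
`G` in `X` whose Sylow `p`-subgroups are not normal and all exponents `τ_i` prime to `|G|` and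
congruent to powers of `p` modulo `|G|_{p'}` the last slope `f a 0`, `p^a = |G|_p`, is zero; (c) for
these `G` and `τ` one has `∑_K μ(K, G) |K| |Irr_{p'}(K)^τ| = 0`, where `K` runs over the subgroups of
index prime to `p`: if `e` is the function on the subgroups of `G` for which `∑_{K ≤ L} e(K)` is
`|L| |Irr_{p'}(L)^τ|` or `0`, as `p` does not divide or divides `|G : L|`, then `e(G) = 0`. -/
theorem result (p : ℕ) [Fact p.Prime] (r : ℕ) (hr : 3 ≤ r ∨ (p ≠ 2 ∧ 2 ≤ r)) :
    (∀ (τ : Fin r → ℕ) (G : Type) [Group G] [Finite G],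
      (∀ i, Nat.Coprime (τ i) (Nat.card G)) →
      ∃ f : ℕ → ℕ → ℤ, IsSurjSlopes p τ G f ∧ ∀ f' : ℕ → ℕ → ℤ, IsSurjSlopes p τ G f' → f' = f) ∧
    ∀ X : ∀ (H : Type) [Group H], Prop, Cl X → List.TFAE [
      ∀ (G : Type) [Group G] [Finite G], X G → ∀ P : Sylow p G, McKayGalois p G P,
      ∀ (G : Type) [Group G] [Finite G], X G → (∀ P : Sylow p G, ¬ (P : Subgroup G).Normal) →
        ∀ τ : Fin r → ℕ, (∀ i, InT p (Nat.card G) (τ i)) →
          ∀ f : ℕ → ℕ → ℤ, IsSurjSlopes p τ G f → f ((Nat.card G).factorization p) 0 = 0,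
      ∀ (G : Type) [Group G] [Finite G], X G → (∀ P : Sylow p G, ¬ (P : Subgroup G).Normal) →
        ∀ τ : Fin r → ℕ, (∀ i, InT p (Nat.card G) (τ i)) →
          ∀ e : Subgroup G → ℤ, (∀ L : Subgroup G, ∑ᶠ K : {K : Subgroup G // K ≤ L}, e K =
            if p ∣ L.index then 0 else (Nat.card L : ℤ) * Nat.card (FixT p τ L)) → e ⊤ = 0] := by
  classical
  refine ⟨?_, ?_⟩
  · intro τ G _ _ hτ
    letI : Fintype (Subgroup G) := Fintype.ofFinite _
    exact ⟨_, Pool.Agent.Helper15.MG.isSurjSlopes_SS τ hτ, fun f' hf' =>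
      Pool.Agent.Helper15.MG.isSurjSlopes_unique hf'
        (Pool.Agent.Helper15.MG.isSurjSlopes_SS τ hτ)⟩
  · intro X hX
    -- the class for given exponents
    have hXτ : ∀ τ : Fin r → ℕ, Cl (fun (H : Type) [Group H] => X H ∧ Finite H ∧
        ∀ i, InT p (Nat.card H) (τ i)) := by
      intro τ
      constructor
      · rintro H K _ _ ⟨h1, h2, h3⟩ ⟨e⟩
        refine ⟨hX.iso _ _ h1 ⟨e⟩, Finite.of_equiv H e.toEquiv, ?_⟩
        rw [← Nat.card_congr e.toEquiv]
        exact h3
      · rintro H _ K ⟨h1, h2, h3⟩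
        exact ⟨hX.sub _ _ h1, inferInstance,
          fun i => inT_mono Nat.card_pos.ne' (Subgroup.card_subgroup_dvd_card K) (h3 i)⟩
    have hF : ∀ τ : Fin r → ℕ, ∀ (H K : Type) [Group H] [Group K] [Finite H],
        (X H ∧ Finite H ∧ ∀ i, InT p (Nat.card H) (τ i)) → Nonempty (H ≃* K) →
          (Nat.card (FixT p τ H) : ℤ) = (Nat.card (FixT p τ K) : ℤ) := by
      rintro τ H K _ _ _ ⟨_, _, h⟩ ⟨e⟩
      exact_mod_cast card_FixT_congr (p := p) (fun i => (h i).1) e
    have key := fun τ : Fin r → ℕ => Pool.Agent.Helper15.MG.loc_glob (p := p) (hXτ τ) (hF τ)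
    have hsum : ∀ (G : Type) [Group G] [Finite G] [Fintype (Subgroup G)] (τ : Fin r → ℕ)
        (e : Subgroup G → ℤ), (∀ L : Subgroup G, ∑ᶠ K : {K : Subgroup G // K ≤ L}, e K =
          if p ∣ L.index then 0 else (Nat.card L : ℤ) * Nat.card (FixT p τ L)) →
        e ⊤ = mt (gA p fun L : Subgroup G => (Nat.card (FixT p τ L) : ℤ)) ⊤ := by
      intro G _ _ _ τ e he
      refine Pool.Agent.Helper15.MG.mt_unique (fun L => ?_) ⊤
      rw [← Finset.sum_filter]
      refine Eq.trans ?_ (he L)
      letI : Fintype {K : Subgroup G // K ≤ L} := Fintype.ofFinite _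
      rw [finsum_eq_sum_of_fintype]
      exact Finset.sum_subtype _ (fun K => by simp) _
    tfae_have 1 → 3 := by
      intro h G _ _ hG hn τ hτ e he
      letI : Fintype (Subgroup G) := Fintype.ofFinite _
      rw [hsum G τ e he]
      refine (key τ).1 ?_ G ⟨hG, inferInstance, hτ⟩ hn
      rintro K _ _ ⟨hK, _, hτK⟩ P
      exact_mod_cast (mg_iff P r hr).1 (h K hK P) τ hτK
    tfae_have 3 → 2 := by
      intro h G _ _ hG hn τ hτ f hf
      letI : Fintype (Subgroup G) := Fintype.ofFinite _
      rw [Pool.Agent.Helper15.MG.last_slope (fun i => (hτ i).1) hf]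
      refine h G hG hn τ hτ
        (mt (gA p fun L : Subgroup G => (Nat.card (FixT p τ L) : ℤ))) fun L => ?_
      have h1 := Pool.Agent.Helper15.MG.sum_mt
        (gA p fun L : Subgroup G => (Nat.card (FixT p τ L) : ℤ)) L
      rw [← Finset.sum_filter] at h1
      refine Eq.trans ?_ h1
      letI : Fintype {K : Subgroup G // K ≤ L} := Fintype.ofFinite _
      rw [finsum_eq_sum_of_fintype]
      exact (Finset.sum_subtype _ (fun K => by simp) _).symm
    tfae_have 2 → 1 := by
      intro h G _ _ hG P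
      rw [mg_iff P r hr]
      intro τ hτ
      refine Nat.cast_injective (R := ℤ) ((key τ).2 ?_ G ⟨hG, inferInstance, hτ⟩ P)
      rintro K _ _ _ ⟨hK, _, hτK⟩ hn
      have h1 := Pool.Agent.Helper15.MG.isSurjSlopes_SS (p := p) (G := K) τ fun i => (hτK i).1
      rw [← Pool.Agent.Helper15.MG.last_slope (fun i => (hτK i).1) h1]
      exact h K hK hn τ hτK _ h1
    tfae_finish

end Pool.Agent.Results.MP_1ae3da_al.SurjectionsOntoGroups
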